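import Mathlib
import Pool.Agent.MP_d178f2_ag.Main

/-!
A restricted quasi-diagonal over `(E, L)` forces `L` to be commensurable with `O(d [e])`.

`E` is the elliptic curve `W`, `L = O(D)`, `K` is the function field of the curve `S ⊆ E ^ m`, its
places are the points of the normalisation of `S`, and `P i ∈ E(K)` is the `i`-th projection.
-/

open WeierstrassCurve WithZero Pool.Agent.MP_d178f2_ag

namespace Pool.Agent.Results.MP_d178f2_ag.QuasiDiagonal

theorem result (W : WeierstrassCurve ℂ) [W.IsElliptic] (D : W.toAffine.Point →₀ ℤ)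
    (K : Type*) [Field K] [DecidableEq K] [Algebra ℂ K] [Algebra.EssFiniteType ℂ K]
    (htr : Algebra.trdeg ℂ K = 1)
    (m : ℕ) (P : Fin m → (W.baseChange K).toAffine.Point)
    (hcurve : ∃ i x y h, P i = .some x y h ∧ x ∉ Set.range (algebraMap ℂ K))
    (hrestricted : ∑ i, P i = 0)
    (hquasi : ∀ i j, ∃ N : ℕ, 0 < N ∧ ∃ f : K, f ≠ 0 ∧ ∀ v : Valuation K ℤᵐ⁰, IsPlace v →
      ord v f = N * (pullback v (P i) D - pullback v (P j) D)) :
    IsOfFinAddOrder (D.sum fun c n => n • c) := by
  obtain ⟨i, x, y, h, e, hx⟩ := hcurve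
  exact main htr D m P ⟨i, e ▸ notMem_range_iota h hx⟩ hrestricted hquasi

end Pool.Agent.Results.MP_d178f2_ag.QuasiDiagonal
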